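import Mathlib
import Pool.Agent.H628R4.TP.Main

/-!
# The strong monodromy conjecture for products of universal sparse polynomials

Let `v k j ∈ ℕ ^ N` for `k < K`, `j < r` (repetitions allowed) and
`f = ∏_k (∑_j y_{k,j} x ^ (v k j))`, a polynomial in the variables `x_1, …, x_N` and `y_{k,j}`.
Then `b_f(s) Z(s)` is a polynomial in `s`, where `Z` is the global topological zeta function of
`f`; in particular every pole of `Z` is a root of `b_f`, of at least the same order.
-/

set_option autoImplicit false

namespace Pool.Agent.Results.MP_504089_ag.SparseProducts

open Polynomial Pool.Agent.H628R4.TZ Pool.Agent.H628R4.TP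

/-- **The strong monodromy conjecture, with multiplicities, for the polynomials
`f = ∏_k (∑_j y_{k,j} x ^ (v k j))`.**

`IsBFunction (prodPoly v) b` says that `b(s) f ^ s = P(s) f ^ (s + 1)` for a differential operator
`P(s)`; the Bernstein-Sato polynomial `b_f` is by definition one of these polynomials `b` (the
monic one of least degree). `R` is any toric variety (given by the maximal cones of its fan) on
which the ideals `(x ^ (v k j))_j` become principal, and `topZetaProd R` is the global topological
zeta function of `f`, computed on the embedded resolution `X_R × ℂ ^ (K r)`. -/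
theorem result {K r N : ℕ} [NeZero r] (v : Fin K → Fin r → Fin N → ℕ)
    (R : ToricResolution (prodExp v)) (b : ℂ[X]) (hb : IsBFunction (prodPoly v) b) :
    ∃ P : ℂ[X], algebraMap ℂ[X] (RatFunc ℂ) b * topZetaProd R = algebraMap ℂ[X] (RatFunc ℂ) P := by
  have : Nonempty (Fin K → Fin r) := ⟨fun _ => 0⟩
  exact main_prod v R b hb

end Pool.Agent.Results.MP_504089_ag.SparseProducts
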